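import Mathlib

/-!
# The deltoid: the polynomial and its irreducibility
-/

set_option autoImplicit false

open MvPolynomial

namespace Pool.Agent.K1H21.Deltoid

/-- the equation of the deltoid (the discriminant of `z³ - x z² + y z - 1`) -/
noncomputable def dlt : MvPolynomial (Fin 2) ℂ :=
  X 0 ^ 2 * X 1 ^ 2 - 4 * X 0 ^ 3 - 4 * X 1 ^ 3 + 18 * X 0 * X 1 - 27

theorem coeffs_zero {c6 c5 c4 c3 c2 c1 c0 : ℂ}
    (h : (Polynomial.C c6 * Polynomial.X ^ 6 + Polynomial.C c5 * Polynomial.X ^ 5
      + Polynomial.C c4 * Polynomial.X ^ 4 + Polynomial.C c3 * Polynomial.X ^ 3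
      + Polynomial.C c2 * Polynomial.X ^ 2 + Polynomial.C c1 * Polynomial.X
      + Polynomial.C c0 : Polynomial ℂ) = 0) :
    c6 = 0 ∧ c5 = 0 ∧ c4 = 0 ∧ c3 = 0 ∧ c0 = 0 := by
  refine ⟨?_, ?_, ?_, ?_, ?_⟩
  · have := congrArg (fun q => Polynomial.coeff q 6) h
    simpa [Polynomial.coeff_X, Polynomial.coeff_C] using this
  · have := congrArg (fun q => Polynomial.coeff q 5) h
    simpa [Polynomial.coeff_X, Polynomial.coeff_C] using this
  · have := congrArg (fun q => Polynomial.coeff q 4) h
    simpa [Polynomial.coeff_X, Polynomial.coeff_C] using this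
  · have := congrArg (fun q => Polynomial.coeff q 3) h
    simpa [Polynomial.coeff_X, Polynomial.coeff_C] using this
  · have := congrArg (fun q => Polynomial.coeff q 0) h
    simpa [Polynomial.coeff_X, Polynomial.coeff_C] using this

/-- no polynomial `r` in one variable satisfies `f (r (c), c) = 0` -/
theorem no_root (r : Polynomial ℂ) :
    r ^ 3 - Polynomial.C (1 / 4) * Polynomial.X ^ 2 * r ^ 2
      - Polynomial.C (9 / 2) * Polynomial.X * r + (Polynomial.X ^ 3 + Polynomial.C (27 / 4)) ≠ 0 := by
  intro h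
  by_cases hr0 : r = 0
  · subst hr0
    have := congrArg (Polynomial.eval 0) h
    simp at this
  have hdeg : r.natDegree ≤ 2 := by
    by_contra hcon
    push Not at hcon
    have h1 : r ^ 3 = Polynomial.C (1 / 4) * Polynomial.X ^ 2 * r ^ 2
      + Polynomial.C (9 / 2) * Polynomial.X * r - (Polynomial.X ^ 3 + Polynomial.C (27 / 4)) := by
      linear_combination h
    have h2 : (r ^ 3).natDegree = 3 * r.natDegree := Polynomial.natDegree_pow r 3
    have h3 : (Polynomial.C (1 / 4) * Polynomial.X ^ 2 * r ^ 2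
      + Polynomial.C (9 / 2) * Polynomial.X * r - (Polynomial.X ^ 3 + Polynomial.C (27 / 4)) :
        Polynomial ℂ).natDegree ≤ 2 + 2 * r.natDegree := by
      refine (Polynomial.natDegree_sub_le _ _).trans (max_le ?_ ?_)
      · refine (Polynomial.natDegree_add_le _ _).trans (max_le ?_ ?_)
        · refine Polynomial.natDegree_mul_le.trans ?_
          have a1 : (Polynomial.C (1 / 4) * Polynomial.X ^ 2 : Polynomial ℂ).natDegree ≤ 2 :=
            Polynomial.natDegree_C_mul_X_pow_le _ _
          have a2 : (r ^ 2).natDegree = 2 * r.natDegree := Polynomial.natDegree_pow r 2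
          omega
        · refine Polynomial.natDegree_mul_le.trans ?_
          have a1 : (Polynomial.C (9 / 2) * Polynomial.X : Polynomial ℂ).natDegree ≤ 1 :=
            by
            simpa using Polynomial.natDegree_C_mul_X_pow_le (9 / 2 : ℂ) 1
          omega
      · refine (Polynomial.natDegree_add_le _ _).trans (max_le ?_ ?_)
        · rw [Polynomial.natDegree_X_pow]; omega
        · rw [Polynomial.natDegree_C]; omega
    rw [← h1, h2] at h3
    omega
  -- write out the coefficients
  obtain ⟨a, b, e, hr⟩ : ∃ a b e : ℂ, r = Polynomial.C a * Polynomial.X ^ 2 +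
      Polynomial.C b * Polynomial.X + Polynomial.C e := by
    refine ⟨r.coeff 2, r.coeff 1, r.coeff 0, ?_⟩
    conv_lhs => rw [r.as_sum_range' 3 (by omega)]
    simp [Finset.sum_range_succ, ← Polynomial.C_mul_X_pow_eq_monomial]
    ring
  have key : ∀ c : ℂ, (a * c ^ 2 + b * c + e) ^ 3 - 1 / 4 * c ^ 2 * (a * c ^ 2 + b * c + e) ^ 2
      - 9 / 2 * c * (a * c ^ 2 + b * c + e) + (c ^ 3 + 27 / 4) = 0 := by
    intro c
    have := congrArg (Polynomial.eval c) h
    rw [hr] at this
    simpa using this
  -- the polynomial with these coefficients vanishes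
  have hpoly : (Polynomial.C (a ^ 3 - a ^ 2 / 4) * Polynomial.X ^ 6
      + Polynomial.C (3 * a ^ 2 * b - a * b / 2) * Polynomial.X ^ 5
      + Polynomial.C (3 * a ^ 2 * e + 3 * a * b ^ 2 - (2 * a * e + b ^ 2) / 4) * Polynomial.X ^ 4
      + Polynomial.C (6 * a * b * e + b ^ 3 - b * e / 2 - 9 / 2 * a + 1) * Polynomial.X ^ 3
      + Polynomial.C (3 * a * e ^ 2 + 3 * b ^ 2 * e - e ^ 2 / 4 - 9 / 2 * b) * Polynomial.X ^ 2
      + Polynomial.C (3 * b * e ^ 2 - 9 / 2 * e) * Polynomial.X
      + Polynomial.C (e ^ 3 + 27 / 4) : Polynomial ℂ) = 0 := by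
    apply Polynomial.funext
    intro c
    have := key c
    simp only [Polynomial.eval_add, Polynomial.eval_mul, Polynomial.eval_C, Polynomial.eval_pow,
      Polynomial.eval_X, Polynomial.eval_zero]
    linear_combination this
  obtain ⟨c6, c5, c4, c3, c0⟩ := coeffs_zero hpoly
  have he : e ≠ 0 := by
    rintro rfl
    norm_num at c0
  have ha : a = 0 ∨ a = 1 / 4 := by
    have h1 : a ^ 2 * (a - 1 / 4) = 0 := by linear_combination c6
    rcases mul_eq_zero.1 h1 with h2 | h2
    · exact Or.inl (pow_eq_zero_iff (two_ne_zero)|>.1 h2)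
    · right; linear_combination h2
  rcases ha with rfl | rfl
  · have hb : b = 0 := by
      have h1 : b ^ 2 = 0 := by linear_combination -4 * c4
      exact pow_eq_zero_iff (two_ne_zero)|>.1 h1
    subst hb
    norm_num at c3
  · have hb : b = 0 := by linear_combination 16 * c5
    subst hb
    apply he
    linear_combination 16 * c4

theorem dlt_irreducible : Irreducible dlt := by
  let E : MvPolynomial (Fin 2) ℂ ≃ₐ[ℂ] Polynomial (MvPolynomial (Fin 1) ℂ) :=
    MvPolynomial.finSuccEquiv ℂ 1
  have hE : E dlt = Polynomial.C (MvPolynomial.C (-4)) *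
      (Polynomial.X ^ 3 - Polynomial.C (MvPolynomial.C (1 / 4) * MvPolynomial.X 0 ^ 2) *
        Polynomial.X ^ 2 - Polynomial.C (MvPolynomial.C (9 / 2) * MvPolynomial.X 0) * Polynomial.X
        + Polynomial.C (MvPolynomial.X 0 ^ 3 + MvPolynomial.C (27 / 4))) := by
    have e0 : E (X 0) = Polynomial.X := MvPolynomial.finSuccEquiv_X_zero
    have e1 : E (X 1) = Polynomial.C (X 0) := MvPolynomial.finSuccEquiv_X_succ (j := 0)
    unfold dlt
    simp only [map_add, map_sub, map_mul, map_pow, e0, e1, map_ofNat]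
    have hn : ∀ m : ℕ, (MvPolynomial.C (m : ℂ) : MvPolynomial (Fin 1) ℂ) = m := fun m =>
      map_natCast MvPolynomial.C m
    have h4' : (MvPolynomial.C 4 : MvPolynomial (Fin 1) ℂ) = 4 := by
      have := hn 4
      exact_mod_cast this
    have h18' : (MvPolynomial.C 18 : MvPolynomial (Fin 1) ℂ) = 18 := by
      have := hn 18
      exact_mod_cast this
    have h27' : (MvPolynomial.C 27 : MvPolynomial (Fin 1) ℂ) = 27 := by
      have := hn 27
      exact_mod_cast this
    have h4 : (MvPolynomial.C (-4) : MvPolynomial (Fin 1) ℂ) = -4 := by rw [map_neg, h4']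
    have h14 : (4 : MvPolynomial (Fin 1) ℂ) * MvPolynomial.C (1 / 4) = 1 := by
      rw [← h4', ← map_mul]; norm_num
    have h92 : (4 : MvPolynomial (Fin 1) ℂ) * MvPolynomial.C (9 / 2) = 18 := by
      rw [← h4', ← map_mul, ← h18']; norm_num
    have h27 : (4 : MvPolynomial (Fin 1) ℂ) * MvPolynomial.C (27 / 4) = 27 := by
      rw [← h4', ← map_mul, ← h27']; norm_num
    have k14 := congrArg (Polynomial.C : MvPolynomial (Fin 1) ℂ →+* _) h14
    have k92 := congrArg (Polynomial.C : MvPolynomial (Fin 1) ℂ →+* _) h92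
    have k27 := congrArg (Polynomial.C : MvPolynomial (Fin 1) ℂ →+* _) h27
    simp only [map_mul, map_ofNat, map_one] at k14 k92 k27
    rw [h4]
    simp only [map_neg, map_ofNat, map_mul, map_pow, map_add]
    linear_combination (-Polynomial.C (X 0) ^ 2 * Polynomial.X ^ 2) * k14 -
      Polynomial.X * Polynomial.C (X 0) * k92 + k27
  rw [← MulEquiv.irreducible_iff E]
  rw [hE]
  set p : Polynomial (MvPolynomial (Fin 1) ℂ) :=
    (Polynomial.X ^ 3 - Polynomial.C (MvPolynomial.C (1 / 4) * MvPolynomial.X 0 ^ 2) *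
        Polynomial.X ^ 2 - Polynomial.C (MvPolynomial.C (9 / 2) * MvPolynomial.X 0) * Polynomial.X
        + Polynomial.C (MvPolynomial.X 0 ^ 3 + MvPolynomial.C (27 / 4))) with hp
  have hu : IsUnit (Polynomial.C (MvPolynomial.C (-4 : ℂ)) : Polynomial (MvPolynomial (Fin 1) ℂ)) := by
    apply IsUnit.map Polynomial.C
    apply IsUnit.map MvPolynomial.C
    exact isUnit_iff_ne_zero.2 (by norm_num)
  rw [irreducible_isUnit_mul hu]
  have hdeg : p.natDegree = 3 := by
    rw [hp]
    compute_degree!
  have hmon : p.Monic := by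
    rw [hp]
    monicity!
  rw [Polynomial.Monic.irreducible_iff_natDegree' hmon]
  refine ⟨?_, ?_⟩
  · intro h1
    rw [h1] at hdeg
    simp at hdeg
  · intro g h hg hh hgh hmem
    rw [hdeg] at hmem
    have hh1 : h.natDegree = 1 := by
      have := Finset.mem_Ioc.1 hmem
      omega
    -- a root of `h`
    have hX : h = Polynomial.X + Polynomial.C (h.coeff 0) := by
      have := hh.as_sum
      rw [hh1] at this
      simpa using this
    set ρ := -h.coeff 0 with hρ
    have hroot : Polynomial.eval ρ p = 0 := by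
      rw [← hgh, Polynomial.eval_mul, hX]
      simp [hρ]
    let φ : MvPolynomial (Fin 1) ℂ →ₐ[ℂ] Polynomial ℂ := MvPolynomial.aeval fun _ => Polynomial.X
    have h2 := congrArg φ hroot
    rw [hp] at h2
    simp only [Polynomial.eval_add, Polynomial.eval_sub, Polynomial.eval_mul, Polynomial.eval_pow,
      Polynomial.eval_X, Polynomial.eval_C, map_add, map_sub, map_mul, map_pow, map_zero] at h2
    have e0 : φ (MvPolynomial.X 0) = Polynomial.X := by simp [φ]
    have eC : ∀ c : ℂ, φ (MvPolynomial.C c) = Polynomial.C c := by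
      intro c
      simp [φ, MvPolynomial.aeval_C]
    rw [e0, eC, eC, eC] at h2
    exact no_root (φ ρ) h2

end Pool.Agent.K1H21.Deltoid
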