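import Mathlib
import Pool.Agent.K1H21.Deltoid.Irr

/-!
# The parametrisation of the deltoid by the punctured plane
-/

set_option autoImplicit false

open MvPolynomial

namespace Pool.Agent.K1H21.Deltoid

/-- the parametrisation -/
noncomputable def phi (t : ℂ) : Fin 2 → ℂ := ![2 * t + (t ^ 2)⁻¹, t ^ 2 + 2 * t⁻¹]

@[simp] theorem phi_zero (t : ℂ) : phi t 0 = 2 * t + (t ^ 2)⁻¹ := rfl
@[simp] theorem phi_one (t : ℂ) : phi t 1 = t ^ 2 + 2 * t⁻¹ := rfl

theorem eval_dlt (q : Fin 2 → ℂ) : eval q dlt =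
    q 0 ^ 2 * q 1 ^ 2 - 4 * q 0 ^ 3 - 4 * q 1 ^ 3 + 18 * q 0 * q 1 - 27 := by
  unfold dlt
  simp only [map_add, map_sub, map_mul, map_pow, eval_X, map_ofNat]

theorem eval_d0 (q : Fin 2 → ℂ) : eval q (pderiv 0 dlt) =
    2 * q 0 * q 1 ^ 2 - 12 * q 0 ^ 2 + 18 * q 1 := by
  have h18 : (18 : MvPolynomial (Fin 2) ℂ) = C 18 := (map_ofNat C 18).symm
  have h27 : (27 : MvPolynomial (Fin 2) ℂ) = C 27 := (map_ofNat C 27).symm
  have h4 : (4 : MvPolynomial (Fin 2) ℂ) = C 4 := (map_ofNat C 4).symm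
  unfold dlt
  rw [h18, h27, h4]
  simp [pderiv_X, Derivation.leibniz, Derivation.leibniz_pow]
  ring

theorem eval_d1 (q : Fin 2 → ℂ) : eval q (pderiv 1 dlt) =
    2 * q 0 ^ 2 * q 1 - 12 * q 1 ^ 2 + 18 * q 0 := by
  have h18 : (18 : MvPolynomial (Fin 2) ℂ) = C 18 := (map_ofNat C 18).symm
  have h27 : (27 : MvPolynomial (Fin 2) ℂ) = C 27 := (map_ofNat C 27).symm
  have h4 : (4 : MvPolynomial (Fin 2) ℂ) = C 4 := (map_ofNat C 4).symm
  unfold dlt
  rw [h18, h27, h4]
  simp [pderiv_X, Derivation.leibniz, Derivation.leibniz_pow]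
  ring

theorem phi_mem {t : ℂ} (ht : t ≠ 0) : eval (phi t) dlt = 0 := by
  rw [eval_dlt, phi_zero, phi_one]
  field_simp
  ring

/-- every point of the curve is in the image -/
theorem exists_phi {q : Fin 2 → ℂ} (hq : eval q dlt = 0) : ∃ t : ℂ, t ≠ 0 ∧ phi t = q := by
  rw [eval_dlt] at hq
  -- a root of the cubic
  obtain ⟨a, ha⟩ : ∃ a : ℂ, a ^ 3 - q 0 * a ^ 2 + q 1 * a - 1 = 0 := by
    have hd : (Polynomial.X ^ 3 - Polynomial.C (q 0) * Polynomial.X ^ 2 +
        Polynomial.C (q 1) * Polynomial.X - 1 : Polynomial ℂ).degree ≠ 0 := by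
      have : (Polynomial.X ^ 3 - Polynomial.C (q 0) * Polynomial.X ^ 2 +
        Polynomial.C (q 1) * Polynomial.X - 1 : Polynomial ℂ).degree = 3 := by
        compute_degree!
      rw [this]; norm_num
    obtain ⟨a, ha⟩ := IsAlgClosed.exists_root _ hd
    refine ⟨a, ?_⟩
    simpa [Polynomial.IsRoot] using ha
  have ha0 : a ≠ 0 := by
    rintro rfl
    norm_num at ha
  obtain ⟨b, hb⟩ : ∃ b : ℂ, b ^ 2 - (q 0 - a) * b + a⁻¹ = 0 := by
    have hd : (Polynomial.X ^ 2 - Polynomial.C (q 0 - a) * Polynomial.X +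
        Polynomial.C a⁻¹ : Polynomial ℂ).degree ≠ 0 := by
      have : (Polynomial.X ^ 2 - Polynomial.C (q 0 - a) * Polynomial.X +
        Polynomial.C a⁻¹ : Polynomial ℂ).degree = 2 := by
        compute_degree!
      rw [this]; norm_num
    obtain ⟨b, hb⟩ := IsAlgClosed.exists_root _ hd
    refine ⟨b, ?_⟩
    simpa [Polynomial.IsRoot] using hb
  obtain ⟨c, hc⟩ : ∃ c : ℂ, c = q 0 - a - b := ⟨_, rfl⟩
  have h1 : q 0 = a + b + c := by rw [hc]; ring
  have h3 : a * b * c = 1 := by
    have : b * c = a⁻¹ := by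
      rw [hc]; linear_combination -hb
    rw [mul_assoc, this, mul_inv_cancel₀ ha0]
  have h2 : q 1 = a * b + b * c + c * a := by
    have : a * (q 1 - (a * b + b * c + c * a)) = 0 := by
      rw [h1] at ha
      linear_combination ha - h3
    rcases mul_eq_zero.1 this with h | h
    · exact absurd h ha0
    · linear_combination h
  have h4 : ((a - b) * (b - c) * (c - a)) ^ 2 = 0 := by
    rw [h1, h2] at hq
    linear_combination hq + (- 4 * (a + b + c) ^ 3 + 18 * (a + b + c) * (a * b + b * c + c * a)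
        - 27 * (a * b * c + 1)) * h3
  have h5 := pow_eq_zero_iff (two_ne_zero) |>.1 h4
  have key : ∀ u v : ℂ, u * u * v = 1 → q 0 = u + u + v → q 1 = u * u + u * v + v * u →
      ∃ t : ℂ, t ≠ 0 ∧ phi t = q := by
    intro u v huv e0 e1
    have hu : u ≠ 0 := by
      rintro rfl
      norm_num at huv
    have hv : v = (u ^ 2)⁻¹ := by
      field_simp
      linear_combination huv
    have hv2 : u * v = u⁻¹ := by
      rw [hv]; field_simp
    refine ⟨u, hu, ?_⟩
    funext i
    fin_cases i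
    · show 2 * u + (u ^ 2)⁻¹ = q 0
      rw [e0, ← hv]; ring
    · show u ^ 2 + 2 * u⁻¹ = q 1
      rw [e1, ← hv2]; ring
  rcases mul_eq_zero.1 h5 with h6 | h6
  · rcases mul_eq_zero.1 h6 with h7 | h7
    · have : b = a := by linear_combination -h7
      subst this
      exact key b c (by linear_combination h3) (by rw [h1]) (by rw [h2])
    · have : c = b := by linear_combination -h7
      subst this
      exact key c a (by linear_combination h3) (by rw [h1]; ring) (by rw [h2]; ring)
  · have : c = a := by linear_combination h6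
    subst this
    exact key c b (by linear_combination h3) (by rw [h1]; ring) (by rw [h2]; ring)

theorem phi_quad {t : ℂ} (ht : t ≠ 0) : (3 * t - phi t 0) ^ 2 = phi t 0 ^ 2 - 3 * phi t 1 := by
  rw [phi_zero, phi_one]
  field_simp
  ring

theorem phi_lin {t : ℂ} (ht : t ≠ 0) :
    2 * (phi t 0 ^ 2 - 3 * phi t 1) * t = phi t 0 * phi t 1 - 9 := by
  rw [phi_zero, phi_one]
  field_simp
  ring

/-- the inverse of the parametrisation -/
noncomputable def psi (q : Fin 2 → ℂ) : ℂ :=
  if q 0 ^ 2 - 3 * q 1 = 0 then q 0 / 3 else (q 0 * q 1 - 9) / (2 * (q 0 ^ 2 - 3 * q 1))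

theorem psi_phi {t : ℂ} (ht : t ≠ 0) : psi (phi t) = t := by
  unfold psi
  split_ifs with h
  · have := phi_quad ht
    rw [h] at this
    have h2 := pow_eq_zero_iff (two_ne_zero) |>.1 this
    linear_combination -h2 / 3
  · rw [← phi_lin ht]
    field_simp

theorem phi_injective {t s : ℂ} (ht : t ≠ 0) (hs : s ≠ 0) (h : phi t = phi s) : t = s := by
  rw [← psi_phi ht, ← psi_phi hs, h]

/-- the curve -/
abbrev Gam : Set (Fin 2 → ℂ) := {z | eval z dlt = 0}

theorem psi_ne {q : Fin 2 → ℂ} (hq : eval q dlt = 0) : psi q ≠ 0 := by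
  obtain ⟨t, ht, rfl⟩ := exists_phi hq
  rwa [psi_phi ht]

theorem phi_psi {q : Fin 2 → ℂ} (hq : eval q dlt = 0) : phi (psi q) = q := by
  obtain ⟨t, ht, rfl⟩ := exists_phi hq
  rw [psi_phi ht]

theorem psi_quad {q : Fin 2 → ℂ} (hq : eval q dlt = 0) :
    (3 * psi q - q 0) ^ 2 = q 0 ^ 2 - 3 * q 1 := by
  obtain ⟨t, ht, rfl⟩ := exists_phi hq
  rw [psi_phi ht, phi_quad ht]

theorem psi_continuous : Continuous fun q : Gam => psi q.1 := by
  have c0 : Continuous fun q : Gam => q.1 0 := (continuous_apply 0).comp continuous_subtype_val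
  have c1 : Continuous fun q : Gam => q.1 1 := (continuous_apply 1).comp continuous_subtype_val
  have c2 : Continuous fun q : Gam => q.1 0 ^ 2 - 3 * q.1 1 :=
    (c0.pow 2).sub (continuous_const.mul c1)
  rw [continuous_iff_continuousAt]
  intro q
  by_cases h : q.1 0 ^ 2 - 3 * q.1 1 = 0
  · -- at a cusp
    have hT : psi q.1 = q.1 0 / 3 := by
      unfold psi; rw [if_pos h]
    have h1 : Filter.Tendsto (fun r : Gam => ‖3 * psi r.1 - r.1 0‖) (nhds q) (nhds 0) := by
      have h2 : Filter.Tendsto (fun r : Gam => Real.sqrt ‖r.1 0 ^ 2 - 3 * r.1 1‖) (nhds q)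
          (nhds (Real.sqrt ‖q.1 0 ^ 2 - 3 * q.1 1‖)) := by
        have : Continuous fun r : Gam => Real.sqrt ‖r.1 0 ^ 2 - 3 * r.1 1‖ :=
          Real.continuous_sqrt.comp c2.norm
        exact this.continuousAt
      rw [h, norm_zero, Real.sqrt_zero] at h2
      refine h2.congr fun r => ?_
      rw [← psi_quad r.2, norm_pow, Real.sqrt_sq (norm_nonneg _)]
    have h3 : Filter.Tendsto (fun r : Gam => 3 * psi r.1 - r.1 0) (nhds q) (nhds 0) :=
      tendsto_zero_iff_norm_tendsto_zero.2 h1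
    have h4 : Filter.Tendsto (fun r : Gam => ((3 * psi r.1 - r.1 0) + r.1 0) / 3) (nhds q)
        (nhds ((0 + q.1 0) / 3)) := (h3.add c0.continuousAt).div_const 3
    show Filter.Tendsto (fun r : Gam => psi r.1) (nhds q) (nhds (psi q.1))
    rw [hT]
    rw [zero_add] at h4
    refine h4.congr fun r => ?_
    ring
  · have hne : ∀ᶠ r : Gam in nhds q, r.1 0 ^ 2 - 3 * r.1 1 ≠ 0 := by
      exact c2.continuousAt.eventually_ne h
    have h5 : ContinuousAt (fun r : Gam => (r.1 0 * r.1 1 - 9) / (2 * (r.1 0 ^ 2 - 3 * r.1 1))) q := by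
      apply ContinuousAt.div
      · exact ((c0.mul c1).sub continuous_const).continuousAt
      · exact (continuous_const.mul c2).continuousAt
      · exact mul_ne_zero two_ne_zero h
    refine h5.congr ?_
    filter_upwards [hne] with r hr
    unfold psi
    rw [if_neg hr]

theorem phi_continuousOn : ContinuousOn phi {t | t ≠ 0} := by
  apply continuousOn_pi.2
  intro i
  fin_cases i
  · show ContinuousOn (fun t : ℂ => 2 * t + (t ^ 2)⁻¹) {t | t ≠ 0}
    apply ContinuousOn.add (by fun_prop)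
    apply ContinuousOn.inv₀ (by fun_prop)
    intro t ht
    exact pow_ne_zero _ ht
  · show ContinuousOn (fun t : ℂ => t ^ 2 + 2 * t⁻¹) {t | t ≠ 0}
    apply ContinuousOn.add (by fun_prop)
    apply ContinuousOn.mul (by fun_prop)
    apply ContinuousOn.inv₀ (by fun_prop)
    intro t ht
    exact ht

/-- the homeomorphism of the punctured plane with the curve -/
noncomputable def homeo : {z : ℂ // z ≠ 0} ≃ₜ Gam where
  toFun t := ⟨phi t.1, phi_mem t.2⟩
  invFun q := ⟨psi q.1, psi_ne q.2⟩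
  left_inv t := Subtype.ext (psi_phi t.2)
  right_inv q := Subtype.ext (phi_psi q.2)
  continuous_toFun := by
    apply Continuous.subtype_mk
    exact phi_continuousOn.domRestrict
  continuous_invFun := by
    apply Continuous.subtype_mk
    exact psi_continuous

/-- singular points are the cusps -/
theorem sing_iff {t : ℂ} (ht : t ≠ 0) :
    (∀ i : Fin 2, eval (phi t) (pderiv i dlt) = 0) ↔ t ^ 3 = 1 := by
  constructor
  · intro h
    have h0 := h 0
    rw [eval_d0, phi_zero, phi_one] at h0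
    have h1 : (t ^ 3 - 1) ^ 3 = 0 := by
      field_simp at h0
      linear_combination h0 / 4
    have h2 := pow_eq_zero_iff (three_ne_zero) |>.1 h1
    linear_combination h2
  · intro h i
    have hinv2 : (t ^ 2)⁻¹ = t := by
      field_simp
      linear_combination -h
    have hinv1 : t⁻¹ = t ^ 2 := by
      field_simp
      linear_combination -h
    fin_cases i
    · show eval (phi t) (pderiv 0 dlt) = 0
      rw [eval_d0, phi_zero, phi_one, hinv2, hinv1]
      linear_combination (54 * t ^ 2) * h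
    · show eval (phi t) (pderiv 1 dlt) = 0
      rw [eval_d1, phi_zero, phi_one, hinv2, hinv1]
      linear_combination (-54 * t) * h

end Pool.Agent.K1H21.Deltoid
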