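import Mathlib
import Pool.Agent.K1H21.Deltoid.Par

/-!
# The deltoid has one branch at each of its cusps
-/

set_option autoImplicit false

open MvPolynomial

namespace Pool.Agent.K1H21.Deltoid

/-- the square of the distance to the cusp, as a function of `v = t / t₀ - 1` -/
noncomputable def NN (v : ℂ) : ℝ :=
  ‖v‖ ^ 4 * (‖3 + 2 * v‖ ^ 2 / (‖1 + v‖ ^ 2) ^ 2 + ‖3 + v‖ ^ 2 / ‖1 + v‖ ^ 2)

theorem norm_sq_aff (x y : ℝ) (v : ℂ) :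
    ‖(x : ℂ) + y * v‖ ^ 2 = (x + y * v.re) ^ 2 + (y * v.im) ^ 2 := by
  rw [← Complex.normSq_eq_norm_sq, Complex.normSq_apply]
  simp
  ring

theorem dist_cusp {t₀ v : ℂ} (h0 : t₀ ^ 3 = 1) (hv : 1 + v ≠ 0) :
    ‖phi (t₀ * (1 + v)) 0 - phi t₀ 0‖ ^ 2 + ‖phi (t₀ * (1 + v)) 1 - phi t₀ 1‖ ^ 2 = NN v := by
  have ht0 : t₀ ≠ 0 := by
    rintro rfl
    norm_num at h0
  have hn0 : ‖t₀‖ = 1 := by
    have : ‖t₀‖ ^ 3 = 1 := by rw [← norm_pow, h0, norm_one]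
    exact (pow_eq_one_iff_of_nonneg (norm_nonneg _) (by norm_num)).1 this
  have hinv2 : (t₀ ^ 2)⁻¹ = t₀ := by
    field_simp
    linear_combination -h0
  have hinv1 : t₀⁻¹ = t₀ ^ 2 := by
    field_simp
    linear_combination -h0
  have e0 : phi (t₀ * (1 + v)) 0 - phi t₀ 0 = t₀ * (v ^ 2 * (3 + 2 * v) / (1 + v) ^ 2) := by
    rw [phi_zero, phi_zero, mul_pow, mul_inv, hinv2]
    field_simp
    ring
  have e1 : phi (t₀ * (1 + v)) 1 - phi t₀ 1 = t₀ ^ 2 * (v ^ 2 * (3 + v) / (1 + v)) := by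
    rw [phi_one, phi_one, mul_inv, hinv1]
    field_simp
    ring
  rw [e0, e1]
  unfold NN
  simp only [norm_mul, norm_pow, norm_div, hn0]
  ring

/-- the radial monotonicity -/
theorem NN_mono {v : ℂ} (hv : ‖v‖ ≤ 1 / 2) {s : ℝ} (hs0 : 0 < s) (hs1 : s ≤ 1) :
    NN (s * v) ≤ NN v := by
  have hv2 : v.re ^ 2 + v.im ^ 2 ≤ 1 / 4 := by
    have h1 : ‖v‖ ^ 2 = v.re ^ 2 + v.im ^ 2 := by
      rw [← Complex.normSq_eq_norm_sq, Complex.normSq_apply]; ring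
    rw [← h1]
    nlinarith [norm_nonneg v]
  obtain ⟨a, ha⟩ : ∃ a, a = v.re := ⟨_, rfl⟩
  obtain ⟨b, hb⟩ : ∃ b, b = v.im := ⟨_, rfl⟩
  have hA : ‖3 + 2 * v‖ ^ 2 = (3 + 2 * a) ^ 2 + (2 * b) ^ 2 := by
    have := norm_sq_aff 3 2 v
    rw [ha, hb]
    simpa using this
  have hC : ‖3 + v‖ ^ 2 = (3 + a) ^ 2 + b ^ 2 := by
    have := norm_sq_aff 3 1 v
    rw [ha, hb]
    simpa using this
  have hB : ‖1 + v‖ ^ 2 = (1 + a) ^ 2 + b ^ 2 := by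
    have := norm_sq_aff 1 1 v
    rw [ha, hb]
    simpa using this
  have hAs : ‖3 + 2 * (s * v)‖ ^ 2 = (3 + 2 * s * a) ^ 2 + (2 * s * b) ^ 2 := by
    have := norm_sq_aff 3 (2 * s) v
    rw [ha, hb, ← this]
    push_cast
    ring_nf
  have hCs : ‖3 + s * v‖ ^ 2 = (3 + s * a) ^ 2 + (s * b) ^ 2 := by
    have := norm_sq_aff 3 s v
    rw [ha, hb, ← this]
    push_cast
    ring_nf
  have hBs : ‖1 + s * v‖ ^ 2 = (1 + s * a) ^ 2 + (s * b) ^ 2 := by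
    have := norm_sq_aff 1 s v
    rw [ha, hb, ← this]
    push_cast
    ring_nf
  rw [← ha, ← hb] at hv2
  have ha2 : -(1 / 2) ≤ a := by nlinarith [sq_nonneg b]
  have hns : ‖(s : ℂ) * v‖ ^ 4 = s ^ 4 * ‖v‖ ^ 4 := by
    rw [norm_mul, Complex.norm_real, Real.norm_of_nonneg hs0.le, mul_pow]
  unfold NN
  rw [hns, hA, hC, hB, hAs, hCs, hBs]
  obtain ⟨A, hAe⟩ : ∃ A, A = (3 + 2 * a) ^ 2 + (2 * b) ^ 2 := ⟨_, rfl⟩
  obtain ⟨C', hCe⟩ : ∃ C', C' = (3 + a) ^ 2 + b ^ 2 := ⟨_, rfl⟩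
  obtain ⟨B, hBe⟩ : ∃ B, B = (1 + a) ^ 2 + b ^ 2 := ⟨_, rfl⟩
  obtain ⟨As, hAse⟩ : ∃ As, As = (3 + 2 * s * a) ^ 2 + (2 * s * b) ^ 2 := ⟨_, rfl⟩
  obtain ⟨Cs, hCse⟩ : ∃ Cs, Cs = (3 + s * a) ^ 2 + (s * b) ^ 2 := ⟨_, rfl⟩
  obtain ⟨Bs, hBse⟩ : ∃ Bs, Bs = (1 + s * a) ^ 2 + (s * b) ^ 2 := ⟨_, rfl⟩
  rw [← hAe, ← hCe, ← hBe, ← hAse, ← hCse, ← hBse]
  have hBpos : 0 < B := by
    have : 0 < 1 + a := by linarith
    rw [hBe]; positivity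
  have hsa : -(1 / 2) ≤ s * a := by
    have h1 : 0 ≤ s * (a + 1 / 2) := mul_nonneg hs0.le (by linarith)
    nlinarith only [h1, hs1]
  have hBspos : 0 < Bs := by
    have : 0 < 1 + s * a := by linarith
    rw [hBse]; positivity
  have hA0 : 0 ≤ A := by rw [hAe]; positivity
  have hAs0 : 0 ≤ As := by rw [hAse]; positivity
  have hC0 : 0 ≤ C' := by rw [hCe]; positivity
  have hCs0 : 0 ≤ Cs := by rw [hCse]; positivity
  -- the three inequalities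
  have i1 : s * B ≤ Bs := by
    have : Bs - s * B = (1 - s) * (1 - s * (a ^ 2 + b ^ 2)) := by rw [hBe, hBse]; ring
    have h2 : 0 ≤ (1 - s) * (1 - s * (a ^ 2 + b ^ 2)) := by
      apply mul_nonneg (by linarith)
      have h3 : s * (a ^ 2 + b ^ 2) ≤ 1 * (1 / 4) :=
        mul_le_mul hs1 hv2 (by positivity) (by norm_num)
      linarith
    linarith
  have i2 : s ^ 2 * As ≤ A := by
    have : A - s ^ 2 * As = (1 - s) * (9 * (1 + s) + 12 * (1 + s + s ^ 2) * a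
        + 4 * (a ^ 2 + b ^ 2) * (1 + s + s ^ 2 + s ^ 3)) := by rw [hAe, hAse]; ring
    have h2 : 0 ≤ (1 - s) * (9 * (1 + s) + 12 * (1 + s + s ^ 2) * a
        + 4 * (a ^ 2 + b ^ 2) * (1 + s + s ^ 2 + s ^ 3)) := by
      apply mul_nonneg (by linarith)
      have h3 : 0 ≤ 4 * (a ^ 2 + b ^ 2) * (1 + s + s ^ 2 + s ^ 3) := by positivity
      have h4 : 0 ≤ 12 * (1 + s + s ^ 2) * (a + 1 / 2) := by
        apply mul_nonneg (by positivity)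
        linarith
      have h5 : 0 ≤ (1 - s) * (1 + 2 * s) := mul_nonneg (by linarith) (by linarith)
      nlinarith only [h3, h4, h5]
    linarith
  have i3 : s ^ 2 * Cs ≤ C' := by
    have : C' - s ^ 2 * Cs = (1 - s) * (9 * (1 + s) + 6 * (1 + s + s ^ 2) * a
        + (a ^ 2 + b ^ 2) * (1 + s + s ^ 2 + s ^ 3)) := by rw [hCe, hCse]; ring
    have h2 : 0 ≤ (1 - s) * (9 * (1 + s) + 6 * (1 + s + s ^ 2) * a
        + (a ^ 2 + b ^ 2) * (1 + s + s ^ 2 + s ^ 3)) := by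
      apply mul_nonneg (by linarith)
      have h3 : 0 ≤ (a ^ 2 + b ^ 2) * (1 + s + s ^ 2 + s ^ 3) := by positivity
      have h4 : 0 ≤ 6 * (1 + s + s ^ 2) * (a + 1 / 2) := by
        apply mul_nonneg (by positivity)
        linarith
      have h5 : 0 ≤ (1 - s) * (1 + 2 * s) := mul_nonneg (by linarith) (by linarith)
      nlinarith only [h3, h4, h5]
    linarith
  have j1 : s ^ 4 * (As / Bs ^ 2) ≤ A / B ^ 2 := by
    rw [← mul_div_assoc, div_le_div_iff₀ (by positivity) (by positivity)]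
    calc s ^ 4 * As * B ^ 2 = (s ^ 2 * As) * (s * B) ^ 2 := by ring
      _ ≤ A * Bs ^ 2 := by
          apply mul_le_mul i2 _ (by positivity) hA0
          exact pow_le_pow_left₀ (by positivity) i1 2
  have j2 : s ^ 4 * (Cs / Bs) ≤ C' / B := by
    rw [← mul_div_assoc, div_le_div_iff₀ (by positivity) (by positivity)]
    calc s ^ 4 * Cs * B = (s ^ 2 * Cs) * (s * (s * B)) := by ring
      _ ≤ C' * Bs := by
          apply mul_le_mul i3 _ (by positivity) hC0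
          calc s * (s * B) ≤ 1 * (s * B) := by
                apply mul_le_mul_of_nonneg_right hs1 (by positivity)
            _ ≤ Bs := by rw [one_mul]; exact i1
  calc s ^ 4 * ‖v‖ ^ 4 * (As / Bs ^ 2 + Cs / Bs)
      = ‖v‖ ^ 4 * (s ^ 4 * (As / Bs ^ 2) + s ^ 4 * (Cs / Bs)) := by ring
    _ ≤ ‖v‖ ^ 4 * (A / B ^ 2 + C' / B) := by
        apply mul_le_mul_of_nonneg_left (add_le_add j1 j2) (by positivity)

/-- far from the cusp -/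
theorem NN_far {v : ℂ} (hv : 1 / 2 ≤ ‖v‖) (h1v : 1 + v ≠ 0) : 1 / 25 < NN v := by
  obtain ⟨a, ha⟩ : ∃ a, a = (1 + v).re := ⟨_, rfl⟩
  obtain ⟨b, hb⟩ : ∃ b, b = (1 + v).im := ⟨_, rfl⟩
  have e1 : v = -1 + (1 + v) := by ring
  have hA : ‖3 + 2 * v‖ ^ 2 = (1 + 2 * a) ^ 2 + (2 * b) ^ 2 := by
    have := norm_sq_aff 1 2 (1 + v)
    rw [ha, hb, ← this]
    congr 2
    push_cast
    ring
  have hC : ‖3 + v‖ ^ 2 = (2 + a) ^ 2 + b ^ 2 := by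
    have := norm_sq_aff 2 1 (1 + v)
    rw [one_mul, one_mul] at this
    rw [ha, hb, ← this]
    congr 2
    push_cast
    ring
  have hB : ‖1 + v‖ ^ 2 = a ^ 2 + b ^ 2 := by
    rw [← Complex.normSq_eq_norm_sq, Complex.normSq_apply, ← ha, ← hb]; ring
  have hpos : 0 < ‖1 + v‖ ^ 2 := by
    have := norm_pos_iff.2 h1v
    positivity
  have htri : ‖1 + v‖ ≤ 1 + ‖v‖ := by
    calc ‖1 + v‖ ≤ ‖(1 : ℂ)‖ + ‖v‖ := norm_add_le _ _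
      _ = 1 + ‖v‖ := by rw [norm_one]
  unfold NN
  obtain ⟨R, hR⟩ : ∃ R, R = ‖1 + v‖ ^ 2 := ⟨_, rfl⟩
  rw [← hR] at hpos ⊢
  have hRle : R ≤ (1 + ‖v‖) ^ 2 := by
    rw [hR]; exact pow_le_pow_left₀ (norm_nonneg _) htri 2
  have hsum : 2 / R ≤ ‖3 + 2 * v‖ ^ 2 / R ^ 2 + ‖3 + v‖ ^ 2 / R := by
    have : ‖3 + 2 * v‖ ^ 2 / R ^ 2 + ‖3 + v‖ ^ 2 / R = (‖3 + 2 * v‖ ^ 2 + ‖3 + v‖ ^ 2 * R) / R ^ 2 := by
      field_simp
    rw [this, div_le_div_iff₀ hpos (by positivity), hA, hC]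
    have hR2 : R = a ^ 2 + b ^ 2 := by rw [hR, hB]
    have key : 2 * R ≤ (1 + 2 * a) ^ 2 + (2 * b) ^ 2 + ((2 + a) ^ 2 + b ^ 2) * R := by
      have : (1 + 2 * a) ^ 2 + (2 * b) ^ 2 + ((2 + a) ^ 2 + b ^ 2) * R - 2 * R =
          (a + 1) ^ 4 + b ^ 4 + b ^ 2 * (2 * (a + 1) ^ 2 + 4) := by
        rw [hR2]; ring
      have h2 : 0 ≤ (a + 1) ^ 4 + b ^ 4 + b ^ 2 * (2 * (a + 1) ^ 2 + 4) := by positivity
      linarith
    nlinarith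
  have h3 : ‖v‖ ^ 4 * (2 / R) ≤ ‖v‖ ^ 4 * (‖3 + 2 * v‖ ^ 2 / R ^ 2 + ‖3 + v‖ ^ 2 / R) :=
    mul_le_mul_of_nonneg_left hsum (by positivity)
  refine lt_of_lt_of_le ?_ h3
  rw [← mul_div_assoc, div_lt_div_iff₀ (by norm_num) hpos]
  obtain ⟨x, hx⟩ : ∃ x, x = ‖v‖ := ⟨_, rfl⟩
  rw [← hx] at hv hRle ⊢
  have h4 : (1 + x) ≤ 6 * x ^ 2 := by nlinarith
  have h5 : (1 + x) ^ 2 ≤ (6 * x ^ 2) ^ 2 := pow_le_pow_left₀ (by linarith) h4 2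
  have hx4 : 0 < x ^ 4 := by positivity
  nlinarith

/-- close to the cusp -/
theorem NN_near {v : ℂ} (hv : ‖v‖ ≤ 1 / 2) : NN v ≤ 77 * ‖v‖ ^ 2 := by
  have h1 : 1 / 2 ≤ ‖1 + v‖ := by
    have : ‖(1 : ℂ)‖ ≤ ‖1 + v‖ + ‖v‖ := by
      calc ‖(1 : ℂ)‖ = ‖(1 + v) - v‖ := by congr 1; ring
        _ ≤ ‖1 + v‖ + ‖v‖ := norm_sub_le _ _
    rw [norm_one] at this
    linarith
  have h2 : ‖3 + 2 * v‖ ≤ 4 := by
    calc ‖3 + 2 * v‖ ≤ ‖(3 : ℂ)‖ + ‖2 * v‖ := norm_add_le _ _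
      _ = 3 + 2 * ‖v‖ := by rw [norm_mul]; norm_num
      _ ≤ 4 := by linarith
  have h3 : ‖3 + v‖ ≤ 7 / 2 := by
    calc ‖3 + v‖ ≤ ‖(3 : ℂ)‖ + ‖v‖ := norm_add_le _ _
      _ = 3 + ‖v‖ := by norm_num
      _ ≤ 7 / 2 := by linarith
  have h4 : 1 / 4 ≤ ‖1 + v‖ ^ 2 := by nlinarith [norm_nonneg (1 + v)]
  have h5 : ‖3 + 2 * v‖ ^ 2 ≤ 16 := by nlinarith [norm_nonneg (3 + 2 * v)]
  have h6 : ‖3 + v‖ ^ 2 ≤ 49 / 4 := by nlinarith [norm_nonneg (3 + v)]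
  have h7 : ‖3 + 2 * v‖ ^ 2 / (‖1 + v‖ ^ 2) ^ 2 ≤ 16 / (1 / 4) ^ 2 := by
    apply div_le_div₀ (by norm_num) h5 (by norm_num)
    exact pow_le_pow_left₀ (by norm_num) h4 2
  have h8 : ‖3 + v‖ ^ 2 / ‖1 + v‖ ^ 2 ≤ (49 / 4) / (1 / 4) :=
    div_le_div₀ (by norm_num) h6 (by norm_num) h4
  unfold NN
  have h9 : ‖v‖ ^ 4 ≤ 1 / 4 * ‖v‖ ^ 2 := by
    have : ‖v‖ ^ 4 = ‖v‖ ^ 2 * ‖v‖ ^ 2 := by ring
    rw [this]
    apply mul_le_mul_of_nonneg_right _ (by positivity)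
    nlinarith [norm_nonneg v]
  calc ‖v‖ ^ 4 * (‖3 + 2 * v‖ ^ 2 / (‖1 + v‖ ^ 2) ^ 2 + ‖3 + v‖ ^ 2 / ‖1 + v‖ ^ 2)
      ≤ (1 / 4 * ‖v‖ ^ 2) * (16 / (1 / 4) ^ 2 + (49 / 4) / (1 / 4)) := by
        apply mul_le_mul h9 (add_le_add h7 h8) (by positivity) (by positivity)
    _ ≤ 77 * ‖v‖ ^ 2 := by nlinarith [sq_nonneg ‖v‖]

/-- the punctured disc is connected -/
theorem disc_preconnected {ρ : ℝ} (hρ : 0 < ρ) :
    IsPreconnected {w : ℂ | w ≠ 0 ∧ ‖w‖ < ρ} := by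
  have h1 : IsPreconnected (Complex.exp '' {z : ℂ | z.re < Real.log ρ}) :=
    (convex_halfSpace_re_lt (Real.log ρ)).isPreconnected.image _
      Complex.continuous_exp.continuousOn
  have h2 : Complex.exp '' {z : ℂ | z.re < Real.log ρ} = {w : ℂ | w ≠ 0 ∧ ‖w‖ < ρ} := by
    apply Set.Subset.antisymm
    · rintro _ ⟨z, hz, rfl⟩
      refine ⟨Complex.exp_ne_zero z, ?_⟩
      rw [Complex.norm_exp]
      calc Real.exp z.re < Real.exp (Real.log ρ) := Real.exp_lt_exp.2 hz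
        _ = ρ := Real.exp_log hρ
    · rintro w ⟨hw, hw2⟩
      refine ⟨Complex.log w, ?_, Complex.exp_log hw⟩
      show (Complex.log w).re < Real.log ρ
      rw [Complex.log_re]
      exact Real.log_lt_log (norm_pos_iff.2 hw) hw2
  rwa [h2] at h1

/-- the punctured neighbourhood of the cusp, in the parameter -/
theorem SS_preconnected {δ : ℝ} (hδ : 0 < δ) (hδ1 : δ < 1 / 5) :
    IsPreconnected {v : ℂ | v ≠ 0 ∧ 1 + v ≠ 0 ∧ NN v < δ ^ 2} := by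
  have hδ2 : δ ^ 2 < 1 / 25 := by nlinarith
  have hsmall : ∀ v : ℂ, 1 + v ≠ 0 → NN v < δ ^ 2 → ‖v‖ < 1 / 2 := by
    intro v hv hN
    by_contra hcon
    push Not at hcon
    have := NN_far hcon hv
    linarith
  have hne : ∀ v : ℂ, ‖v‖ ≤ 1 / 2 → 1 + v ≠ 0 := by
    intro v hv h
    have h1 : v = -1 := by linear_combination h
    rw [h1] at hv
    norm_num at hv
  set ρ := δ / 20 with hρ
  have hρ0 : 0 < ρ := by positivity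
  have hdisc : {w : ℂ | w ≠ 0 ∧ ‖w‖ < ρ} ⊆ {v : ℂ | v ≠ 0 ∧ 1 + v ≠ 0 ∧ NN v < δ ^ 2} := by
    rintro w ⟨hw, hw2⟩
    have hw3 : ‖w‖ ≤ 1 / 2 := by rw [hρ] at hw2; linarith
    refine ⟨hw, hne w hw3, ?_⟩
    have h1 := NN_near hw3
    have h2 : ‖w‖ ^ 2 < ρ ^ 2 := pow_lt_pow_left₀ hw2 (norm_nonneg _) (by norm_num)
    rw [hρ] at h2
    nlinarith
  have hbase : ((ρ / 2 : ℝ) : ℂ) ∈ {w : ℂ | w ≠ 0 ∧ ‖w‖ < ρ} := by
    refine ⟨by exact_mod_cast (by positivity : ρ / 2 ≠ 0), ?_⟩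
    rw [Complex.norm_real, Real.norm_of_nonneg (by positivity)]
    linarith
  refine isPreconnected_of_forall ((ρ / 2 : ℝ) : ℂ) ?_
  rintro v ⟨hv0, hv1, hvN⟩
  have hvs := hsmall v hv1 hvN
  -- the segment
  set seg : Set ℂ := (fun s : ℝ => (s : ℂ) * v) '' Set.Ioc 0 1 with hseg
  have hsegc : IsPreconnected seg :=
    isPreconnected_Ioc.image _ (by fun_prop)
  have hsegs : seg ⊆ {v : ℂ | v ≠ 0 ∧ 1 + v ≠ 0 ∧ NN v < δ ^ 2} := by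
    rintro _ ⟨s, ⟨hs0, hs1⟩, rfl⟩
    have hn : ‖(s : ℂ) * v‖ ≤ 1 / 2 := by
      rw [norm_mul, Complex.norm_real, Real.norm_of_nonneg hs0.le]
      nlinarith [norm_nonneg v]
    refine ⟨mul_ne_zero (by exact_mod_cast hs0.ne') hv0, hne _ hn, ?_⟩
    exact lt_of_le_of_lt (NN_mono hvs.le hs0 hs1) hvN
  refine ⟨{w : ℂ | w ≠ 0 ∧ ‖w‖ < ρ} ∪ seg, Set.union_subset hdisc hsegs, Or.inl hbase,
    Or.inr ⟨1, ⟨one_pos, le_refl _⟩, by simp⟩, ?_⟩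
  have hvpos : 0 < ‖v‖ := norm_pos_iff.2 hv0
  set s0 : ℝ := min 1 (ρ / (2 * ‖v‖)) with hs0
  have hs0pos : 0 < s0 := lt_min one_pos (by positivity)
  have hs01 : s0 ≤ 1 := min_le_left _ _
  have hmem : (s0 : ℂ) * v ∈ {w : ℂ | w ≠ 0 ∧ ‖w‖ < ρ} := by
    refine ⟨mul_ne_zero (by exact_mod_cast hs0pos.ne') hv0, ?_⟩
    rw [norm_mul, Complex.norm_real, Real.norm_of_nonneg hs0pos.le]
    have : s0 ≤ ρ / (2 * ‖v‖) := min_le_right _ _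
    calc s0 * ‖v‖ ≤ ρ / (2 * ‖v‖) * ‖v‖ := mul_le_mul_of_nonneg_right this hvpos.le
      _ = ρ / 2 := by field_simp
      _ < ρ := by linarith
  exact (disc_preconnected hρ0).union ((s0 : ℂ) * v) hmem ⟨s0, ⟨hs0pos, hs01⟩, rfl⟩ hsegc

/-- the curve has one branch at a cusp -/
theorem cusp_preconnected {t₀ : ℂ} (h0 : t₀ ^ 3 = 1) {δ : ℝ} (hδ : 0 < δ) (hδ1 : δ < 1 / 5) :
    IsPreconnected {q : Fin 2 → ℂ | eval q dlt = 0 ∧ q ≠ phi t₀ ∧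
      ‖q 0 - phi t₀ 0‖ ^ 2 + ‖q 1 - phi t₀ 1‖ ^ 2 < δ ^ 2} := by
  have ht0 : t₀ ≠ 0 := by
    rintro rfl
    norm_num at h0
  have h1 := (SS_preconnected hδ hδ1).image (fun v => phi (t₀ * (1 + v))) (by
    refine phi_continuousOn.comp (by fun_prop) ?_
    rintro v ⟨-, hv, -⟩
    exact mul_ne_zero ht0 hv)
  convert h1 using 1
  apply Set.Subset.antisymm
  · rintro q ⟨hq, hqp, hqd⟩
    obtain ⟨t, ht, rfl⟩ := exists_phi hq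
    have e : t₀ * (1 + (t / t₀ - 1)) = t := by field_simp; ring
    have hne : 1 + (t / t₀ - 1) ≠ 0 := by
      have : 1 + (t / t₀ - 1) = t / t₀ := by ring
      rw [this]
      exact div_ne_zero ht ht0
    refine ⟨t / t₀ - 1, ⟨?_, hne, ?_⟩, ?_⟩
    · intro h
      apply hqp
      have : t = t₀ := by
        rw [h] at e
        rw [← e]; ring
      rw [this]
    · rw [← dist_cusp h0 hne, e]
      exact hqd
    · show phi (t₀ * (1 + (t / t₀ - 1))) = phi t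
      rw [e]
  · rintro _ ⟨v, ⟨hv0, hv1, hvN⟩, rfl⟩
    refine ⟨phi_mem (mul_ne_zero ht0 hv1), ?_, ?_⟩
    · intro h
      have h2 := phi_injective (mul_ne_zero ht0 hv1) ht0 h
      have h3 : t₀ * v = 0 := by linear_combination h2
      rcases mul_eq_zero.1 h3 with h4 | h4
      · exact ht0 h4
      · exact hv0 h4
    · show ‖phi (t₀ * (1 + v)) 0 - phi t₀ 0‖ ^ 2 + ‖phi (t₀ * (1 + v)) 1 - phi t₀ 1‖ ^ 2 < δ ^ 2
      rw [dist_cusp h0 hv1]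
      exact hvN

end Pool.Agent.K1H21.Deltoid
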