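import Mathlib
import Pool.Agent.K1H21.Deltoid.Loc
import Pool.Agent.H823R3.Pi1Cyclic

/-!
# The deltoid has first Betti number one and three unibranch singular points
-/

set_option autoImplicit false

open MvPolynomial

namespace Pool.Agent.K1H21.Deltoid

/-- the unibranch singular points -/
abbrev sg : Set (Fin 2 → ℂ) := {p : Fin 2 → ℂ | MvPolynomial.eval p dlt = 0 ∧
        (∀ i : Fin 2, MvPolynomial.eval p (MvPolynomial.pderiv i dlt) = 0) ∧
        ∃ ε : ℝ, 0 < ε ∧ ∀ δ : ℝ, 0 < δ → δ < ε →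
          IsPreconnected {q : Fin 2 → ℂ | MvPolynomial.eval q dlt = 0 ∧ q ≠ p ∧
            ‖q 0 - p 0‖ ^ 2 + ‖q 1 - p 1‖ ^ 2 < δ ^ 2}}

theorem sg_eq : sg = phi '' {t : ℂ | t ^ 3 = 1} := by
  apply Set.Subset.antisymm
  · rintro p ⟨hp, hs, -⟩
    obtain ⟨t, ht, rfl⟩ := exists_phi hp
    exact ⟨t, (sing_iff ht).1 hs, rfl⟩
  · rintro _ ⟨t, ht, rfl⟩
    have ht0 : t ≠ 0 := by
      rintro rfl
      norm_num at ht
    exact ⟨phi_mem ht0, (sing_iff ht0).2 ht, 1 / 5, by norm_num,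
      fun δ h1 h2 => cusp_preconnected ht h1 h2⟩

theorem sg_ncard : sg.ncard = 3 := by
  rw [sg_eq, Set.ncard_image_of_injOn]
  · have h : {t : ℂ | t ^ 3 = 1} = ((Polynomial.nthRoots 3 (1 : ℂ)).toFinset : Set ℂ) := by
      ext t
      simp
    rw [h, Set.ncard_coe_finset]
    have hp : IsPrimitiveRoot (Complex.exp (2 * Real.pi * Complex.I / 3)) 3 := by
      have := Complex.isPrimitiveRoot_exp 3 (by norm_num)
      simpa using this
    have h1 := hp.card_nthRootsFinset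
    rw [Polynomial.nthRootsFinset] at h1
    convert h1
  · intro t ht s hs h
    have ht0 : t ≠ 0 := by
      rintro rfl
      norm_num at ht
    have hs0 : s ≠ 0 := by
      rintro rfl
      norm_num at hs
    exact phi_injective ht0 hs0 h

theorem final :
    ¬ (∀ f : MvPolynomial (Fin 2) ℂ, Irreducible f →
    ∀ x₀ : ↥{z : Fin 2 → ℂ | MvPolynomial.eval z f = 0},
    Set.ncard {p : Fin 2 → ℂ | MvPolynomial.eval p f = 0 ∧
        (∀ i : Fin 2, MvPolynomial.eval p (MvPolynomial.pderiv i f) = 0) ∧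
        ∃ ε : ℝ, 0 < ε ∧ ∀ δ : ℝ, 0 < δ → δ < ε →
          IsPreconnected {q : Fin 2 → ℂ | MvPolynomial.eval q f = 0 ∧ q ≠ p ∧
            ‖q 0 - p 0‖ ^ 2 + ‖q 1 - p 1‖ ^ 2 < δ ^ 2}}
      ≤ Module.finrank ℤ
          (Additive (Abelianization
            (FundamentalGroup ↥{z : Fin 2 → ℂ | MvPolynomial.eval z f = 0} x₀))) + 1) := by
  intro h
  have h1 := h dlt dlt_irreducible ⟨phi 1, phi_mem one_ne_zero⟩
  have h2 := Pool.Agent.H823R3.finrank_le_one_of_homeomorph homeo ⟨phi 1, phi_mem one_ne_zero⟩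
  have h3 := sg_ncard
  have h4 : sg.ncard ≤ Module.finrank ℤ (Additive (Abelianization
            (FundamentalGroup ↥{z : Fin 2 → ℂ | MvPolynomial.eval z dlt = 0}
              ⟨phi 1, phi_mem one_ne_zero⟩))) + 1 := h1
  rw [h3] at h4
  have h5 : Module.finrank ℤ (Additive (Abelianization
            (FundamentalGroup ↥{z : Fin 2 → ℂ | MvPolynomial.eval z dlt = 0}
              ⟨phi 1, phi_mem one_ne_zero⟩))) ≤ 1 := h2
  omega

end Pool.Agent.K1H21.Deltoid
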